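import Pool.Agent.Lib.EinsteinSix.Sl.A2.Def

set_option maxRecDepth 100000

namespace EinsteinSix.Sl

theorem ckA2_1 : ckA2 1 = true := by decide +kernel
theorem ckA2_9 : ckA2 9 = true := by decide +kernel
theorem ckA2_20 : ckA2 20 = true := by decide +kernel
theorem ckA2_26 : ckA2 26 = true := by decide +kernel
theorem ckA2_42 : ckA2 42 = true := by decide +kernel
theorem ckA2_46 : ckA2 46 = true := by decide +kernel
theorem ckA2_47 : ckA2 47 = true := by decide +kernel
theorem ckA2_48 : ckA2 48 = true := by decide +kernel
theorem ckA2_49 : ckA2 49 = true := by decide +kernel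
theorem ckA2_50 : ckA2 50 = true := by decide +kernel
theorem ckA2_51 : ckA2 51 = true := by decide +kernel
theorem ckA2_52 : ckA2 52 = true := by decide +kernel
theorem ckA2_53 : ckA2 53 = true := by decide +kernel
theorem ckA2_54 : ckA2 54 = true := by decide +kernel
theorem ckA2_55 : ckA2 55 = true := by decide +kernel
theorem ckA2_56 : ckA2 56 = true := by decide +kernel
theorem ckA2_57 : ckA2 57 = true := by decide +kernel
theorem ckA2_58 : ckA2 58 = true := by decide +kernel
theorem ckA2_59 : ckA2 59 = true := by decide +kernel
theorem ckA2_60 : ckA2 60 = true := by decide +kernel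
theorem ckA2_61 : ckA2 61 = true := by decide +kernel
theorem ckA2_62 : ckA2 62 = true := by decide +kernel
theorem ckA2_63 : ckA2 63 = true := by decide +kernel
theorem ckA2_64 : ckA2 64 = true := by decide +kernel
theorem ckA2_65 : ckA2 65 = true := by decide +kernel
theorem ckA2_66 : ckA2 66 = true := by decide +kernel
theorem ckA2_67 : ckA2 67 = true := by decide +kernel
theorem ckA2_68 : ckA2 68 = true := by decide +kernel
theorem ckA2_69 : ckA2 69 = true := by decide +kernel
theorem ckA2_70 : ckA2 70 = true := by decide +kernel
theorem ckA2_71 : ckA2 71 = true := by decide +kernel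
theorem ckA2_72 : ckA2 72 = true := by decide +kernel
theorem ckA2_73 : ckA2 73 = true := by decide +kernel
theorem ckA2_74 : ckA2 74 = true := by decide +kernel
theorem ckA2_75 : ckA2 75 = true := by decide +kernel

end EinsteinSix.Sl
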