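import Pool.Agent.Lib.EinsteinSix.Sl.A2.Def

set_option maxRecDepth 100000

namespace EinsteinSix.Sl

theorem ckA2_8 : ckA2 8 = true := by decide +kernel
theorem ckA2_10 : ckA2 10 = true := by decide +kernel
theorem ckA2_17 : ckA2 17 = true := by decide +kernel
theorem ckA2_19 : ckA2 19 = true := by decide +kernel
theorem ckA2_33 : ckA2 33 = true := by decide +kernel
theorem ckA2_44 : ckA2 44 = true := by decide +kernel

end EinsteinSix.Sl
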