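import Pool.Agent.Lib.EinsteinSix.Sl.A2.Def

set_option maxRecDepth 100000

namespace EinsteinSix.Sl

theorem ckA2_18 : ckA2 18 = true := by decide +kernel
theorem ckA2_31 : ckA2 31 = true := by decide +kernel
theorem ckA2_35 : ckA2 35 = true := by decide +kernel
theorem ckA2_37 : ckA2 37 = true := by decide +kernel
theorem ckA2_40 : ckA2 40 = true := by decide +kernel
theorem ckA2_45 : ckA2 45 = true := by decide +kernel

end EinsteinSix.Sl
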