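import Pool.Agent.Lib.EinsteinSix.Sl.A2.Def

set_option maxRecDepth 100000

namespace EinsteinSix.Sl

theorem ckA2_2 : ckA2 2 = true := by decide +kernel
theorem ckA2_11 : ckA2 11 = true := by decide +kernel
theorem ckA2_21 : ckA2 21 = true := by decide +kernel
theorem ckA2_36 : ckA2 36 = true := by decide +kernel
theorem ckA2_38 : ckA2 38 = true := by decide +kernel
theorem ckA2_43 : ckA2 43 = true := by decide +kernel

end EinsteinSix.Sl
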