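import Pool.Agent.Lib.EinsteinSix.Sl.A2.Def

set_option maxRecDepth 100000

namespace EinsteinSix.Sl

theorem ckA2_3 : ckA2 3 = true := by decide +kernel
theorem ckA2_5 : ckA2 5 = true := by decide +kernel
theorem ckA2_12 : ckA2 12 = true := by decide +kernel
theorem ckA2_22 : ckA2 22 = true := by decide +kernel
theorem ckA2_23 : ckA2 23 = true := by decide +kernel
theorem ckA2_28 : ckA2 28 = true := by decide +kernel

end EinsteinSix.Sl
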