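import Pool.Agent.Lib.EinsteinSix.Sl.A2.Def

set_option maxRecDepth 100000

namespace EinsteinSix.Sl

theorem ckA2_4 : ckA2 4 = true := by decide +kernel
theorem ckA2_7 : ckA2 7 = true := by decide +kernel
theorem ckA2_15 : ckA2 15 = true := by decide +kernel
theorem ckA2_16 : ckA2 16 = true := by decide +kernel
theorem ckA2_32 : ckA2 32 = true := by decide +kernel
theorem ckA2_41 : ckA2 41 = true := by decide +kernel

end EinsteinSix.Sl
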