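import Pool.Agent.Lib.EinsteinSix.Sl.A2.Data
import Pool.Agent.Lib.EinsteinSix.Sl.Core

/-!
# Slice A2: the check
-/

namespace EinsteinSix.Sl

open HopfKC

/-- Check of row `k` of slice A2. -/
noncomputable def ckA2 (k : ℕ) : Bool := roww NNA2 e4 (fhw fTA2) rowsA2 tmsA2 k

end EinsteinSix.Sl
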